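import Pool.Agent.H38.Dist.Proof

theorem Pool.Agent.Results.MP_591151_lc.Pos.result :
    ∃ (X : Type) (_ : MeasurableSpace X) (_ : StandardBorelSpace X) (G : SimpleGraph X),
      MeasurableSet {p : X × X | G.Adj p.1 p.2} ∧
      (∃ c : X → Fin 3, ∀ φ : G ≃g G, (∀ x, c (φ x) = c x) → ∀ x, φ x = x) ∧
      ∀ (I : Type) [MeasurableSpace I] [StandardBorelSpace I] [Countable I] (c : X → I),
        Measurable c → ∃ φ : G ≃g G, (∀ x, c (φ x) = c x) ∧ ∃ x, φ x ≠ x :=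
  Pool.Agent.H38.Dist.main
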